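import Pool.Agent.W709.RT.San
import Pool.Agent.H105R3.JSanCurl
import Pool.Agent.H309R4.Jones.SanU
import Pool.Agent.H550R3.Jones.SanSkein699
import Pool.Agent.H927R2.J.SanYB
import Pool.Agent.H309R4.Jones.SanI
import Pool.Agent.H22R3.J.Nat
import Pool.Agent.W707.TV.Rt

/-!
# The volume conjecture for SO(3)-knot states: all connected sums of the double twist knots
# `C(2m, 2m)`, `m ≥ 2`

`C(A, A)` is the two-bridge knot (`A` even) or two-component link (`A` odd) with one twist region of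
`A` crossings and one of `A` opposite crossings.  Cut open it is the (1,1)-tangle of the following
picture: start with one strand and a cup to its right (three strands), perform `A` crossings between
the strands 1 and 2, then `A` opposite crossings between the strands 2 and 3, close the strands 1
and 2 by a cap; the third strand leaves.

The coloured Jones polynomials are defined from the R-matrix of `U_q(sl_2)`, with `v = t^{1/2}` and
`{k} = v^k - v^{-k}`.  The `N`-coloured Jones polynomial is the (scalar) operator of the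
(1,1)-tangle, read off at the highest weight vector.
-/

set_option autoImplicit false

namespace Pool.Agent.Results.MP_c404d3_gt.DoubleTwistStates

open Finset Filter Topology

/-! ### The coloured Jones polynomial -/

/-- `{n} = v^n - v^{-n}` -/
noncomputable def br (v : ℂ) (n : ℤ) : ℂ := v ^ n - v ^ (-n)

/-- `{n}! = {1} {2} ⋯ {n}` -/
noncomputable def brf (v : ℂ) (n : ℕ) : ℂ := ∏ j ∈ range n, br v ((j : ℤ) + 1)

/-- The positive crossing: the R-matrix of `U_q(sl_2)` on `V_N ⊗ V_N`, `V_N` with basis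
`e_0, …, e_{N-1}`, times the framing factor `v^{-(N^2-1)/2}`; `crossP N v p q` is the coefficient
of `e_{p.1} ⊗ e_{p.2}` in the image of `e_{q.1} ⊗ e_{q.2}`:
`e_i ⊗ e_j ↦ ∑_n v^{-(N-1)(1+i+j) + 2(i-n)(j+n) + n(n-1)/2}
({j+n}! / ({j}! {n}!)) ∏_{t<n} {N-i+t} e_{j+n} ⊗ e_{i-n}`. -/
noncomputable def crossP (N : ℕ) (v : ℂ) : Matrix (Fin N × Fin N) (Fin N × Fin N) ℂ :=
  fun p q => if (p.1 : ℕ) + p.2 = q.1 + q.2 ∧ (q.2 : ℕ) ≤ p.1 then
    v ^ (-((N : ℤ) - 1) * (1 + (q.1 : ℕ) + (q.2 : ℕ)) + 2 * (p.1 : ℕ) * (p.2 : ℕ)) *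
      v ^ (((p.1 : ℕ) - q.2) * ((p.1 : ℕ) - q.2 - 1) / 2) *
      (brf v p.1 / (brf v q.2 * brf v ((p.1 : ℕ) - q.2))) *
      ∏ t ∈ range ((p.1 : ℕ) - q.2), br v ((N : ℤ) - (q.1 : ℕ) + t)
    else 0

/-- The negative crossing, inverse of `crossP N v`:
`e_i ⊗ e_j ↦ ∑_n (-1)^n v^{(N-1)(1+i+j) - 2ij - n(n-1)/2}
({i+n}! / ({i}! {n}!)) ∏_{t<n} {N-j+t} e_{j-n} ⊗ e_{i+n}`. -/
noncomputable def crossN (N : ℕ) (v : ℂ) : Matrix (Fin N × Fin N) (Fin N × Fin N) ℂ :=
  fun p q => if (p.1 : ℕ) + p.2 = q.1 + q.2 ∧ (q.1 : ℕ) ≤ p.2 then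
    (-1) ^ ((p.2 : ℕ) - q.1) *
      v ^ (((N : ℤ) - 1) * (1 + (q.1 : ℕ) + (q.2 : ℕ)) - 2 * (q.1 : ℕ) * (q.2 : ℕ)) /
      v ^ (((p.2 : ℕ) - q.1) * ((p.2 : ℕ) - q.1 - 1) / 2) *
      (brf v p.2 / (brf v q.1 * brf v ((p.2 : ℕ) - q.1))) *
      ∏ t ∈ range ((p.2 : ℕ) - q.1), br v ((N : ℤ) - (q.2 : ℕ) + t)
    else 0

/-- The crossing `A` on the strands number `k` and `k + 1` (counted from `0`) of `n` strands. -/
def gen {ι : Type} [DecidableEq ι] (A : Matrix (ι × ι) (ι × ι) ℂ) (n k : ℕ) :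
    Matrix (Fin n → ι) (Fin n → ι) ℂ :=
  fun s t => if h : k + 1 < n then
    (if ∀ j : Fin n, (j : ℕ) ≠ k → (j : ℕ) ≠ k + 1 → s j = t j then
      A (s ⟨k, by omega⟩, s ⟨k + 1, h⟩) (t ⟨k, by omega⟩, t ⟨k + 1, h⟩) else 0)
    else (if s = t then 1 else 0)

/-- The operator of a braid word on `n` strands (the last letter acts first): the letter
`(k, true)` is the crossing `P`, the letter `(k, false)` the crossing `Q` on the strands number `k`
and `k + 1`. -/
def rep {ι : Type} [Fintype ι] [DecidableEq ι] (P Q : Matrix (ι × ι) (ι × ι) ℂ) (n : ℕ)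
    (w : List (ℕ × Bool)) : Matrix (Fin n → ι) (Fin n → ι) ℂ :=
  (w.map fun g => gen (if g.2 then P else Q) n g.1).prod

/-- The coefficients of the invariant vector `∑_k kap k e_k ⊗ e_{N-1-k}` of `V_N ⊗ V_N`:
`kap k = (-1)^k v^{k(N-2-k)} {k}! {N-1-k}! / {N-1}!`. -/
noncomputable def kap (N : ℕ) (v : ℂ) (k : ℕ) : ℂ :=
  (-1) ^ k * v ^ ((k : ℤ) * ((N : ℤ) - 2 - k)) * (brf v k * brf v (N - 1 - k) / brf v (N - 1))

/-- The cup: the invariant vector of `V_N ⊗ V_N`. -/
noncomputable def cup (N : ℕ) (v : ℂ) (p : Fin N × Fin N) : ℂ :=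
  if (p.1 : ℕ) + p.2 = N - 1 then kap N v p.1 else 0

/-- The cap: the invariant linear form on `V_N ⊗ V_N`. -/
noncomputable def cap (N : ℕ) (v : ℂ) (p : Fin N × Fin N) : ℂ :=
  if (p.1 : ℕ) + p.2 = N - 1 then (kap N v p.2)⁻¹ else 0

/-- The operator `V_N → V_N` of the (1,1)-tangle: a cup between the strands 2 and 3, the braid word
`w` on three strands, a cap between the strands 1 and 2. -/
noncomputable def tangle (N : ℕ) (w : List (ℕ × Bool)) (v : ℂ) : Matrix (Fin N) (Fin N) ℂ :=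
  fun i j => ∑ p : Fin N × Fin N, ∑ q : Fin N × Fin N,
    cap N v p * rep (crossP N v) (crossN N v) 3 w ![p.1, p.2, i] ![j, q.1, q.2] * cup N v q

/-- `A` crossings between the strands 1 and 2, then `A` opposite crossings between the strands
2 and 3. -/
def word (A : ℕ) : List (ℕ × Bool) := List.replicate A (1, false) ++ List.replicate A (0, true)

/-- The `N`-coloured Jones polynomial of `C(A, A)` (unknot `= 1`; all components coloured `N`) at
`q = v^2`: the entry of the (1,1)-tangle operator at the highest weight vector `e_0`.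
(For `A` even the diagram has writhe `0`, and the framing factors of the crossings cancel.) -/
noncomputable def jones (A N : ℕ) (v : ℂ) : ℂ :=
  if h : 0 < N then tangle N (word A) v ⟨0, h⟩ ⟨0, h⟩ else 0

/-- `v_r = exp (π i / (r + 1/2))`, so that `t = v_r^2 = exp (2 π i / (r + 1/2))`. -/
noncomputable def root (r : ℕ) : ℂ := Complex.exp (Real.pi * Complex.I / (r + 1 / 2))

/-- The `n`-coloured Jones polynomial (unknot `= 1`) of the connected sum `K` of the knots
`C(2m, 2m)`, `m` in the list `l`: the composition of the (1,1)-tangles. -/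
noncomputable def jonesK (l : List ℕ) (n : ℕ) (v : ℂ) : ℂ :=
  if h : 0 < n then (l.map fun m => tangle n (word (2 * m)) v).prod ⟨0, h⟩ ⟨0, h⟩ else 0

/-- The square of the `L²`-norm of the `r`-th `SO(3)`-knot state of `K`:
`4 / (2 r + 1) ∑_{n=1}^{r} sin² (2 π n / (2 r + 1)) |J_{K,n} (e^{2 π i / (r + 1/2)})|²`. -/
noncomputable def stateSq (l : List ℕ) (r : ℕ) : ℝ :=
  4 / (2 * r + 1) * ∑ n ∈ Icc 1 r,
    Real.sin (2 * Real.pi * n / (2 * r + 1)) ^ 2 * ‖jonesK l n (root r)‖ ^ 2

/-! ### The hyperbolic volume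

The complement of `C(A, A)` has a canonical ideal triangulation (Sakuma and Weeks; Gueritaud and
Futer) with `2 A - 3` layers of two ideal tetrahedra.  Its angle structures are parametrised by
`w_0, …, w_{2A-2}` with `w_0 = w_{2A-2} = π`; both tetrahedra of layer `i` have the dihedral angles
`angX`, `angY`, `angZ`.  Layer `A - 1` is the hinge between the two twist regions. -/

/-- Lobachevsky's function `Λ(x) = -∫_0^x log |2 sin t| dt`. -/
noncomputable def Lob (x : ℝ) : ℝ := -∫ t in (0 : ℝ)..x, Real.log |2 * Real.sin t|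

/-- first dihedral angle of the tetrahedra of layer `i` -/
noncomputable def angX (A : ℕ) (w : ℕ → ℝ) (i : ℕ) : ℝ :=
  if i + 1 = A then (w (i - 1) + w i - w (i + 1)) / 2 else (w (i - 1) + w (i + 1)) / 2

/-- second dihedral angle of the tetrahedra of layer `i` -/
noncomputable def angY (A : ℕ) (w : ℕ → ℝ) (i : ℕ) : ℝ :=
  if i + 1 = A then (-w (i - 1) + w i + w (i + 1)) / 2
  else (2 * w i - w (i - 1) - w (i + 1)) / 2

/-- third dihedral angle of the tetrahedra of layer `i` -/
noncomputable def angZ (w : ℕ → ℝ) (i : ℕ) : ℝ := Real.pi - w i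

/-- the angle structures -/
def IsAngle (A : ℕ) (w : ℕ → ℝ) : Prop :=
  w 0 = Real.pi ∧ w (A + A - 2) = Real.pi ∧
    ∀ i, 1 ≤ i → i ≤ A + A - 3 → 0 < angX A w i ∧ 0 < angY A w i ∧ 0 < angZ w i

/-- the volume of an angle structure: two ideal tetrahedra in every layer -/
noncomputable def vol (A : ℕ) (w : ℕ → ℝ) : ℝ :=
  ∑ i ∈ Icc 1 (A + A - 3), 2 * (Lob (angX A w i) + Lob (angY A w i) + Lob (angZ w i))

/-! ### Checks of the definitions (not part of the result) -/

/-- For `N = 2` the crossings satisfy the skein relation of the Jones polynomial. -/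
theorem skein (v : ℂ) (hv : v ≠ 0) (h1 : br v 1 ≠ 0) :
    v ^ 2 • crossP 2 v - (v ^ 2)⁻¹ • crossN 2 v =
      (v - v⁻¹) • (1 : Matrix (Fin 2 × Fin 2) (Fin 2 × Fin 2) ℂ) :=
  Pool.Agent.H550R3.Jones.taskSanSkein v hv h1

/-- The two crossings are inverse to each other. -/
theorem cross_inverse (N : ℕ) (v : ℂ) (hv : v ≠ 0)
    (h : ∀ k : ℕ, 0 < k → k < N → br v k ≠ 0) :
    crossP N v * crossN N v = 1 ∧ crossN N v * crossP N v = 1 :=
  Pool.Agent.H309R4.Jones.SanI.taskSanInv Pool.Agent.H345J.taskMod Pool.Agent.H345J.taskInv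
    Pool.Agent.H559R3.J.taskCross N v ⟨hv, h⟩

/-- The Yang-Baxter equation, for every colour. -/
theorem yang_baxter (N : ℕ) (v : ℂ) (hv : v ≠ 0) (h : ∀ k : ℕ, 0 < k → k < N → br v k ≠ 0) :
    gen (crossP N v) 3 0 * gen (crossP N v) 3 1 * gen (crossP N v) 3 0 =
      gen (crossP N v) 3 1 * gen (crossP N v) 3 0 * gen (crossP N v) 3 1 :=
  Pool.Agent.H927R2.J.SanYB.taskSanYB Pool.Agent.H345J.taskMod Pool.Agent.H345J.taskInt
    Pool.Agent.H345J.taskInv Pool.Agent.H667J.taskHex1 Pool.Agent.H22R3.J.taskNat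
    Pool.Agent.H559R3.J.taskCross N v ⟨hv, h⟩

/-- Zigzag: without crossings the tangle is trivial (the unknot has the value `1`). -/
theorem zigzag (N : ℕ) (v : ℂ) (hv : v ≠ 0) (h : ∀ k : ℕ, 0 < k → k < N → br v k ≠ 0) :
    tangle N [] v = 1 :=
  Pool.Agent.W709.RT.zigzag hv h

/-! ### The result -/

lemma root_eq (N : ℕ) : root N = Pool.Agent.W707.TV.vh N := by
  unfold root Pool.Agent.W707.TV.vh Pool.Agent.W707.TV.Rh
  push_cast
  rfl

lemma volume_eq (A : ℕ) : {W : ℝ | ∃ w, IsAngle A w ∧ vol A w = W} =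
    {W : ℝ | ∃ w, Pool.Agent.W709.VC.IsAngle A A w ∧ Pool.Agent.W709.VC.volw A A w = W} := rfl

lemma jonesK_eq (l : List ℕ) {n : ℕ} (hn : 1 ≤ n) (v : ℂ) :
    jonesK l n v = (l.map fun m => Pool.Agent.W709.RT.jt (2 * m) n v).prod := by
  have h : 0 < n := hn
  unfold jonesK
  rw [dif_pos h]
  have h1 := Pool.Agent.W707.TV.prod_diag (l.map fun m => word (2 * m)) v (⟨0, h⟩ : Fin n)
  simp only [List.map_map, Function.comp_def] at h1
  refine Eq.trans h1 ?_
  congr 1
  refine List.map_congr_left fun A _ => ?_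
  unfold Pool.Agent.W709.RT.jt
  rw [dif_pos h]
  rfl

lemma stateSq_eq (l : List ℕ) {r : ℕ} (hr : 1 ≤ r) :
    stateSq l r = Pool.Agent.W707.TV.tvs
      (fun i => (l.map fun m => Pool.Agent.W709.RT.jt (2 * m) i
        (Pool.Agent.W707.TV.vh r)).prod) r := by
  have hr' : (1 : ℝ) ≤ r := by exact_mod_cast hr
  have hR : (0 : ℝ) < 2 * r + 1 := by linarith
  have hsin : 0 < Real.sin (2 * Real.pi / (2 * r + 1)) := by
    refine Real.sin_pos_of_pos_of_lt_pi (by positivity) ?_
    rw [div_lt_iff₀ hR]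
    nlinarith [Real.pi_pos]
  have hc : ((2 * r + 1 : ℕ) : ℝ) = 2 * r + 1 := by push_cast; ring
  have ha : ∀ i : ℕ, Real.pi * i / Pool.Agent.W707.TV.Rh r = 2 * Real.pi * i / (2 * r + 1) := by
    intro i
    unfold Pool.Agent.W707.TV.Rh
    rw [div_eq_div_iff (by positivity) (by positivity)]
    ring
  unfold stateSq Pool.Agent.W707.TV.tvs
  rw [Finset.mul_sum, Finset.mul_sum, hc]
  refine Finset.sum_congr rfl fun i hi => ?_
  rw [Finset.mem_Icc] at hi
  have h1 := Pool.Agent.W707.TV.qi_eq (M := r) i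
  unfold Pool.Agent.W707.TV.qi at h1
  have h2 := ha 1
  rw [Nat.cast_one, mul_one, mul_one] at h2
  rw [ha i, h2] at h1
  rw [norm_mul, mul_pow, h1, jonesK_eq l hi.1, root_eq, div_pow, div_pow, sq_abs, sq_abs,
    Real.sq_sqrt hR.le]
  field_simp
  ring

/-- **The volume conjecture for `SO(3)`-knot states, for all connected sums of double twist knots.**
Let `l` be a finite list of numbers `m ≥ 2` (repetitions allowed) and `K` the connected sum of the
knots `C(2m, 2m)`, `m ∈ l`.
(1) For `1 ≤ n ≤ r` the `n`-coloured Jones polynomial is continuous at `v_r`, so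
`jonesK l n (root r)` is its value at `t = e^{2 π i / (r + 1/2)}` in the usual sense.
(2) For every `m ∈ l` the volume functional has a maximum `V m` over the angle structures of the
canonical ideal triangulation of the complement of `C(2m, 2m)`, and `2 π / r` times the logarithm
of the norm of the `r`-th knot state tends to the sum of the `V m`, `m ∈ l`.
By Casson and Rivin (see Gueritaud and Futer) `V m` is the hyperbolic volume of the complement of
`C(2m, 2m)`, and the sum is `v_3` times the Gromov norm of the complement of `K`. -/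
theorem result (l : List ℕ) (hl : ∀ m ∈ l, 2 ≤ m) :
    (∀ r n : ℕ, 1 ≤ n → n ≤ r → ContinuousAt (jonesK l n) (root r)) ∧
    ∃ V : ℕ → ℝ,
      (∀ m ∈ l, IsGreatest {W : ℝ | ∃ w, IsAngle (2 * m) w ∧ vol (2 * m) w = W} (V m)) ∧
      Tendsto (fun r : ℕ => 2 * Real.pi / r * Real.log (Real.sqrt (stateSq l r))) atTop
        (𝓝 (l.map V).sum) := by
  refine ⟨fun r n hn hr => ?_, ?_⟩
  · have e : jonesK l n = fun v => (l.map fun m => Pool.Agent.W709.RT.jt (2 * m) n v).prod := by
      funext v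
      exact jonesK_eq l hn v
    rw [e, root_eq]
    exact tendsto_list_prod l fun m _ => Pool.Agent.W707.TV.jt_contv (2 * m) hr
  · obtain ⟨V, hV⟩ := Pool.Agent.W707.TV.eb
    refine ⟨fun m => V (2 * m), fun m hm => ?_, ?_⟩
    · rw [volume_eq]
      exact (hV (2 * m) (by have := hl m hm; omega)).1
    · refine (Pool.Agent.W707.TV.state_growth (Pool.Agent.W707.TV.EB_list l
        (fun m M i => Pool.Agent.W709.RT.jt (2 * m) i (Pool.Agent.W707.TV.vh M))
        (fun m => V (2 * m))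
        fun m hm => (hV (2 * m) (by have := hl m hm; omega)).2)).congr' ?_
      filter_upwards [eventually_ge_atTop 1] with r hr
      rw [stateSq_eq l hr]

end Pool.Agent.Results.MP_c404d3_gt.DoubleTwistStates
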